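import Mathlib

/-!
Local holomorphic branches of an algebraic function.
-/

open Filter Topology Set Polynomial

namespace Pool.Agent.MP_46692b_an.H26

theorem reduce_separable (P : ℂ[X][X]) (hP : P ≠ 0) :
    ∃ (Q : ℂ[X][X]) (D : ℂ[X]), D ≠ 0 ∧ ∀ z, D.eval z ≠ 0 →
      (Q.map (evalRingHom z)).Separable ∧ (Q.map (evalRingHom z)).natDegree = Q.natDegree ∧
        ∀ w, P.evalEval z w = 0 → Q.evalEval z w = 0 := by
  classical
  let K := FractionRing ℂ[X]
  have hinj : Function.Injective (algebraMap ℂ[X] K) := IsFractionRing.injective _ _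
  have hminj : Function.Injective (Polynomial.map (algebraMap ℂ[X] K)) := map_injective _ hinj
  have : CharZero K := algebraRat.charZero K
  set p : K[X] := P.map (algebraMap ℂ[X] K) with hp
  have hp0 : p ≠ 0 := fun h => hP (hminj (by rw [← hp, h, Polynomial.map_zero]))
  set r := UniqueFactorizationMonoid.radical p with hr
  have hr0 : r ≠ 0 := UniqueFactorizationMonoid.radical_ne_zero
  have hsep : r.Separable :=
    PerfectField.separable_iff_squarefree.2 UniqueFactorizationMonoid.squarefree_radical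
  obtain ⟨a, b, hab⟩ := hsep
  obtain ⟨n, c, hc⟩ := UniqueFactorizationMonoid.exists_dvd_radical_self_pow hp0
  rw [← hr] at hc
  have clear : ∀ q : K[X], ∃ d : ℂ[X], d ≠ 0 ∧ ∃ q0 : ℂ[X][X],
      q0.map (algebraMap ℂ[X] K) = C (algebraMap ℂ[X] K d) * q := by
    intro q
    obtain ⟨d, hd, h⟩ := IsLocalization.integerNormalization_spec (nonZeroDivisors ℂ[X]) q
    refine ⟨d, nonZeroDivisors.ne_zero hd, _, h.trans ?_⟩
    rw [← smul_eq_C_mul, algebraMap_smul]
  obtain ⟨d1, hd1, Q, hQ⟩ := clear r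
  obtain ⟨d2, hd2, a0, ha0⟩ := clear a
  obtain ⟨d3, hd3, b0, hb0⟩ := clear b
  obtain ⟨d4, hd4, c0, hc0⟩ := clear c
  have hQ0 : Q ≠ 0 := by
    rintro rfl
    rw [Polynomial.map_zero] at hQ
    refine mul_ne_zero (C_ne_zero.2 ?_) hr0 hQ.symm
    exact fun h => hd1 (hinj (by rw [h, map_zero]))
  have e1 : C d3 * a0 * Q + C d2 * b0 * derivative Q = C (d1 * d2 * d3) := by
    apply hminj
    simp only [Polynomial.map_add, Polynomial.map_mul, map_C, ← derivative_map, hQ, ha0, hb0,
      map_mul, derivative_C_mul]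
    linear_combination (C (algebraMap ℂ[X] K d1) * C (algebraMap ℂ[X] K d2) *
      C (algebraMap ℂ[X] K d3)) * hab
  have e2 : C d4 * Q ^ n = C (d1 ^ n) * P * c0 := by
    apply hminj
    simp only [Polynomial.map_mul, Polynomial.map_pow, map_C, hQ, hc0, map_pow, ← hp, mul_pow, hc]
    ring
  refine ⟨Q, d1 * d2 * d3 * d4 * Q.leadingCoeff,
    mul_ne_zero (mul_ne_zero (mul_ne_zero (mul_ne_zero hd1 hd2) hd3) hd4)
      (leadingCoeff_ne_zero.2 hQ0), fun z hz => ?_⟩
  simp only [eval_mul, mul_ne_zero_iff] at hz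
  obtain ⟨⟨⟨⟨h1, h2⟩, h3⟩, h4⟩, h5⟩ := hz
  refine ⟨?_, natDegree_map_of_leadingCoeff_ne_zero _ h5, fun w hw => ?_⟩
  · have e3 := congrArg (Polynomial.map (evalRingHom z)) e1
    simp only [Polynomial.map_add, Polynomial.map_mul, map_C, ← derivative_map] at e3
    set δ : ℂ := evalRingHom z (d1 * d2 * d3) with hδ
    have hδ0 : δ ≠ 0 := by
      simp only [hδ, coe_evalRingHom, eval_mul]
      exact mul_ne_zero (mul_ne_zero h1 h2) h3
    refine ⟨C δ⁻¹ * (C (evalRingHom z d3) * a0.map (evalRingHom z)),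
      C δ⁻¹ * (C (evalRingHom z d2) * b0.map (evalRingHom z)), ?_⟩
    have e4 : C δ⁻¹ * C δ = (1 : ℂ[X]) := by rw [← C_mul, inv_mul_cancel₀ hδ0, C_1]
    linear_combination C δ⁻¹ * e3 + e4
  · have e3 := congrArg (evalEval z w) e2
    simp only [evalEval_mul, evalEval_pow, evalEval_C, hw, mul_zero, zero_mul] at e3
    exact eq_zero_of_pow_eq_zero ((mul_eq_zero.1 e3).resolve_left h4)

theorem contDiff_evalEval (Q : ℂ[X][X]) :
    ContDiff ℂ 1 (fun q : ℂ × ℂ => Q.evalEval q.1 q.2) := by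
  induction Q using Polynomial.induction_on' with
  | add p q hp hq =>
    simp only [evalEval_add]
    exact hp.add hq
  | monomial n a =>
    simp only [← C_mul_X_pow_eq_monomial, evalEval_mul, evalEval_pow, evalEval_C, evalEval_X]
    have : ContDiff ℂ 1 (fun x : ℂ => a.eval x) := a.differentiable.contDiff
    exact (this.comp contDiff_fst).mul (contDiff_snd.pow n)

theorem exists_branch (Q : ℂ[X][X]) {p w : ℂ} (h0 : Q.evalEval p w = 0)
    (h1 : (derivative (Q.map (evalRingHom p))).eval w ≠ 0) :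
    ∃ A : ℂ → ℂ, A p = w ∧ ∀ᶠ z in 𝓝 p, DifferentiableAt ℂ A z ∧ Q.evalEval z (A z) = 0 := by
  have cdf : ContDiffAt ℂ 1 (fun q : ℂ × ℂ => Q.evalEval q.1 q.2) (p, w) :=
    (contDiff_evalEval Q).contDiffAt
  have hinv : (fderiv ℂ (fun q : ℂ × ℂ => Q.evalEval q.1 q.2) (p, w) ∘L
      ContinuousLinearMap.inr ℂ ℂ ℂ).IsInvertible := by
    have h2 := (cdf.differentiableAt one_ne_zero).hasFDerivAt.comp w (hasFDerivAt_prodMk_right p w)
    have h3 : HasDerivAt (fun y => Q.evalEval p y)
        ((derivative (Q.map (evalRingHom p))).eval w) w := by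
      simpa only [map_evalRingHom_eval] using (Q.map (evalRingHom p)).hasDerivAt w
    have h4 := h2.unique h3.hasFDerivAt
    rw [h4]
    refine ⟨ContinuousLinearEquiv.unitsEquivAut ℂ (Units.mk0 _ h1), ?_⟩
    ext
    simp
  refine ⟨cdf.implicitFunction one_ne_zero hinv, cdf.implicitFunction_apply_self _ hinv, ?_⟩
  have h5 := cdf.eventually_apply_implicitFunction one_ne_zero hinv
  have h6 := (cdf.contDiffAt_implicitFunction one_ne_zero hinv).eventually (by simp)
  filter_upwards [h5, h6] with z hz hz'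
  exact ⟨hz'.differentiableAt one_ne_zero, hz.trans h0⟩

/-- Off a finite set, the roots of `P(z, ·)` lie among finitely many pairwise distinct local
holomorphic branches. -/
theorem local_branches (P : ℂ[X][X]) (hP : P ≠ 0) :
    ∃ F : Set ℂ, F.Finite ∧ ∀ p, p ∉ F → ∃ (U : Set ℂ) (s : Finset ℂ) (A : ℂ → ℂ → ℂ),
      IsOpen U ∧ p ∈ U ∧ (∀ i ∈ s, DifferentiableOn ℂ (A i) U) ∧
      (∀ z ∈ U, ∀ i ∈ s, ∀ j ∈ s, i ≠ j → A i z ≠ A j z) ∧
      ∀ z ∈ U, ∀ w, P.evalEval z w = 0 → ∃ i ∈ s, w = A i z := by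
  classical
  obtain ⟨Q, D, hD, h⟩ := reduce_separable P hP
  refine ⟨{z | D.IsRoot z}, finite_setOfPred_isRoot hD, fun p hp => ?_⟩
  obtain ⟨hsep, hdeg, -⟩ := h p hp
  set s := (Q.map (evalRingHom p)).roots.toFinset with hs
  have hcard : s.card = Q.natDegree := by
    rw [hs, Multiset.toFinset_card_of_nodup (nodup_roots hsep), IsAlgClosed.card_roots_eq_natDegree,
      hdeg]
  have hbr : ∀ w, w ∈ s → ∃ A : ℂ → ℂ, A p = w ∧
      ∀ᶠ z in 𝓝 p, DifferentiableAt ℂ A z ∧ Q.evalEval z (A z) = 0 := by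
    intro w hw
    rw [hs, Multiset.mem_toFinset, mem_roots hsep.ne_zero] at hw
    apply exists_branch
    · rw [← map_evalRingHom_eval]
      exact hw
    · exact hsep.eval₂_derivative_ne_zero (RingHom.id ℂ) hw
  choose! A hA1 hA2 using hbr
  have hev : ∀ᶠ z in 𝓝 p, D.eval z ≠ 0 ∧
      (∀ i ∈ s, DifferentiableAt ℂ (A i) z ∧ Q.evalEval z (A i z) = 0) ∧
      ∀ i ∈ s, ∀ j ∈ s, i ≠ j → A i z ≠ A j z := by
    refine (D.continuous.continuousAt.eventually_ne hp).and (Eventually.and ?_ ?_)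
    · rw [eventually_all_finset]
      exact hA2
    · rw [eventually_all_finset]
      intro i hi
      rw [eventually_all_finset]
      intro j hj
      by_cases hij : i = j
      · filter_upwards with z h using absurd hij h
      · have c1 := (hA2 i hi).self_of_nhds.1.continuousAt
        have c2 := (hA2 j hj).self_of_nhds.1.continuousAt
        have := (c1.sub c2).eventually_ne (y := 0) (by
          simp only [Pi.sub_apply, hA1 i hi, hA1 j hj]
          exact sub_ne_zero.2 hij)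
        filter_upwards [this] with z hz _
        exact sub_ne_zero.1 hz
  obtain ⟨U, hU, hUo, hpU⟩ := mem_nhds_iff.1 hev
  refine ⟨U, s, A, hUo, hpU, fun i hi z hz => ((hU hz).2.1 i hi).1.differentiableWithinAt,
    fun z hz => (hU hz).2.2, fun z hz w hw => ?_⟩
  obtain ⟨h1, h2, h3⟩ := hU hz
  obtain ⟨hsep', hdeg', hPQ⟩ := h z h1
  have hsub : s.image (fun i => A i z) ⊆ (Q.map (evalRingHom z)).roots.toFinset := by
    intro x hx
    obtain ⟨i, hi, rfl⟩ := Finset.mem_image.1 hx
    rw [Multiset.mem_toFinset, mem_roots hsep'.ne_zero, IsRoot.def, map_evalRingHom_eval]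
    exact (h2 i hi).2
  have hc1 : (s.image (fun i => A i z)).card = s.card := by
    apply Finset.card_image_of_injOn
    intro i hi j hj hij
    by_contra hne
    exact h3 i hi j hj hne hij
  have hc2 : (Q.map (evalRingHom z)).roots.toFinset.card ≤ (s.image (fun i => A i z)).card := by
    rw [hc1, hcard, ← hdeg']
    exact (Multiset.toFinset_card_le _).trans (card_roots' _)
  have heq := Finset.eq_of_subset_of_card_le hsub hc2
  have hw' : w ∈ (Q.map (evalRingHom z)).roots.toFinset := by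
    rw [Multiset.mem_toFinset, mem_roots hsep'.ne_zero, IsRoot.def, map_evalRingHom_eval]
    exact hPQ w hw
  rw [← heq] at hw'
  obtain ⟨i, hi, rfl⟩ := Finset.mem_image.1 hw'
  exact ⟨i, hi, rfl⟩

end Pool.Agent.MP_46692b_an.H26
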