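import Pool.Agent.MP_46692b_an.H26.Dbar

/-!
The Cauchy transform of a finite measure and its weak d-bar derivative.
-/

open MeasureTheory Filter Topology Set Complex

namespace Pool.Agent.MP_46692b_an.H26

theorem pompeiu {ψ : ℂ → ℝ} (hψ : ContDiff ℝ 1 ψ) (hc : HasCompactSupport ψ) (ζ : ℂ) :
    ∫ z, (z - ζ)⁻¹ * dbar ψ z = -(2 * Real.pi) * ψ ζ := by
  have h1 : ContDiff ℝ 1 (fun z => ψ (z + ζ)) := hψ.comp (contDiff_id.add contDiff_const)
  have h2 : HasCompactSupport (fun z => ψ (z + ζ)) :=
    hc.comp_homeomorph (Homeomorph.addRight ζ)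
  have h := pompeiu_zero h1 h2
  rw [zero_add] at h
  rw [← h, ← integral_add_right_eq_self _ ζ]
  congr 1
  ext z
  simp only [add_sub_cancel_right, dbar, fderiv_comp_add_right]

theorem locallyIntegrable_inv : LocallyIntegrable (fun z : ℂ => z⁻¹) := by
  refine locallyIntegrable_of_norm_le_rpow (C := 1) (α := 1) ?_ ?_ ?_ ?_
  · simp
  · simp
  · filter_upwards with z
    simp [Real.rpow_neg_one]
  · exact measurable_inv.aestronglyMeasurable

theorem integrable_kernel (μ : Measure ℂ) [IsFiniteMeasure μ] {h : ℂ → ℂ} (hh : Continuous h)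
    (hc : HasCompactSupport h) :
    Integrable (fun p : ℂ × ℂ => (p.1 - p.2)⁻¹ * h p.1) (volume.prod μ) := by
  obtain ⟨M, hM⟩ := hh.bounded_above_of_compact_support hc
  have hM0 : 0 ≤ M := (norm_nonneg _).trans (hM 0)
  set k : ℂ → ℝ := (Metric.closedBall (0 : ℂ) 1).indicator (fun z => ‖z⁻¹‖) with hk
  have hki : Integrable k := by
    rw [hk, integrable_indicator_iff Metric.isClosed_closedBall.measurableSet]
    exact (locallyIntegrable_inv.integrableOn_isCompact (isCompact_closedBall 0 1)).norm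
  have i1 : Integrable (fun p : ℂ × ℂ => M * k (p.1 - p.2)) (volume.prod μ) := by
    have := Integrable.convolution_integrand (ContinuousLinearMap.mul ℝ ℝ)
      (integrable_const (μ := μ) M) hki
    simpa using this
  have i2 : Integrable (fun p : ℂ × ℂ => ‖h p.1‖) (volume.prod μ) :=
    (hh.integrable_of_hasCompactSupport hc).norm.comp_fst μ
  refine (i1.add i2).mono' ?_ ?_
  · apply Measurable.aestronglyMeasurable
    exact (measurable_fst.sub measurable_snd).inv.mul (hh.measurable.comp measurable_fst)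
  · filter_upwards with p
    rw [norm_mul]
    simp only [Pi.add_apply]
    by_cases hp : p.1 - p.2 ∈ Metric.closedBall (0 : ℂ) 1
    · rw [hk, indicator_of_mem hp]
      have := hM p.1
      have h0 := norm_nonneg (p.1 - p.2)⁻¹
      have h1 := norm_nonneg (h p.1)
      nlinarith
    · rw [hk, indicator_of_notMem hp]
      rw [mem_closedBall_zero_iff, not_le] at hp
      have h0 : ‖(p.1 - p.2)⁻¹‖ ≤ 1 := by
        rw [norm_inv]
        exact inv_le_one_of_one_le₀ hp.le
      have h1 := norm_nonneg (h p.1)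
      nlinarith

theorem cauchy_aestronglyMeasurable (μ : Measure ℂ) [IsFiniteMeasure μ] :
    AEStronglyMeasurable (fun z : ℂ => ∫ ζ, (z - ζ)⁻¹ ∂μ) volume := by
  have : StronglyMeasurable (Function.uncurry fun z ζ : ℂ => (z - ζ)⁻¹) :=
    ((measurable_fst.sub measurable_snd).inv).stronglyMeasurable
  exact (this.integral_prod_right (ν := μ)).aestronglyMeasurable

/-- The weak d-bar derivative of the Cauchy transform of `μ` is `2π μ`
(for our normalisation of `dbar`). -/
theorem cauchy_weak (μ : Measure ℂ) [IsFiniteMeasure μ] {ψ : ℂ → ℝ} (hψ : ContDiff ℝ 1 ψ)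
    (hc : HasCompactSupport ψ) :
    ∫ z, (∫ ζ, (z - ζ)⁻¹ ∂μ) * dbar ψ z = -(2 * Real.pi) * (∫ ζ, ψ ζ ∂μ : ℝ) := by
  have hcd : HasCompactSupport (dbar ψ) :=
    HasCompactSupport.intro hc.isCompact (fun z hz => dbar_eq_zero_of_notMem hz)
  have hi := integrable_kernel μ (continuous_dbar hψ) hcd
  have h := integral_integral_swap (f := fun z ζ : ℂ => (z - ζ)⁻¹ * dbar ψ z) hi
  simp only [integral_mul_const] at h
  rw [h]
  simp only [pompeiu hψ hc]
  rw [integral_const_mul, integral_complex_ofReal]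

end Pool.Agent.MP_46692b_an.H26
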