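import Mathlib

/-!
Weak d-bar derivative of the Cauchy transform.
-/

open MeasureTheory Filter Topology Set Complex

namespace Pool.Agent.MP_46692b_an.H26

/-- `(d/dx + i d/dy) ψ` for a real valued function on the plane. -/
noncomputable def dbar (ψ : ℂ → ℝ) (z : ℂ) : ℂ :=
  ((fderiv ℝ ψ z 1 : ℝ) : ℂ) + I * ((fderiv ℝ ψ z I : ℝ) : ℂ)

theorem continuous_fderiv_apply {ψ : ℂ → ℝ} (hψ : ContDiff ℝ 1 ψ) (v : ℂ) :
    Continuous fun z => fderiv ℝ ψ z v :=
  (hψ.continuous_fderiv one_ne_zero).clm_apply continuous_const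

theorem continuous_dbar {ψ : ℂ → ℝ} (hψ : ContDiff ℝ 1 ψ) : Continuous (dbar ψ) := by
  unfold dbar
  have h1 := continuous_fderiv_apply hψ 1
  have h2 := continuous_fderiv_apply hψ I
  fun_prop

theorem fderiv_eq_zero_of_notMem {ψ : ℂ → ℝ} {z : ℂ} (hz : z ∉ tsupport ψ) :
    fderiv ℝ ψ z = 0 := by
  have : z ∉ tsupport (fderiv ℝ ψ) := fun h => hz (tsupport_fderiv_subset ℝ h)
  exact image_eq_zero_of_notMem_tsupport this

theorem dbar_eq_zero_of_notMem {ψ : ℂ → ℝ} {z : ℂ} (hz : z ∉ tsupport ψ) : dbar ψ z = 0 := by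
  simp [dbar, fderiv_eq_zero_of_notMem hz]

theorem integrable_of_continuousOn_of_zero {E : Type*} [NormedAddCommGroup E] {K : Set ℂ}
    (hK : IsCompact K) {h : ℂ → E} (hh : ContinuousOn h K) (h0 : ∀ z, z ∉ K → h z = 0) :
    Integrable h :=
  (hh.integrableOn_compact hK).integrable_of_forall_notMem_eq_zero h0

/-- Integration by parts against a compactly supported test function. -/
theorem ibp {E : Type*} [NormedAddCommGroup E] [NormedSpace ℝ E] {F : ℂ → E} {ψ : ℂ → ℝ}
    {V : Set ℂ} (hV : IsOpen V) (hF : ContDiffOn ℝ 1 F V) (hψ : ContDiff ℝ 1 ψ)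
    (hc : HasCompactSupport ψ) (hs : tsupport ψ ⊆ V) (v : ℂ) :
    ∫ z, ψ z • fderiv ℝ F z v = - ∫ z, fderiv ℝ ψ z v • F z := by
  have hFc : ContinuousOn F (tsupport ψ) := hF.continuousOn.mono hs
  have hF' : ContinuousOn (fun z => fderiv ℝ F z v) (tsupport ψ) :=
    ((hF.continuousOn_fderiv_of_isOpen hV le_rfl).mono hs).clm_apply continuousOn_const
  apply integral_smul_fderiv_eq_neg_fderiv_smul_of_integrable
  · apply integrable_of_continuousOn_of_zero hc
    · exact (continuous_fderiv_apply hψ v).continuousOn.smul hFc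
    · intro z hz
      simp [fderiv_eq_zero_of_notMem hz]
  · apply integrable_of_continuousOn_of_zero hc
    · exact hψ.continuous.continuousOn.smul hF'
    · intro z hz
      simp [image_eq_zero_of_notMem_tsupport hz]
  · apply integrable_of_continuousOn_of_zero hc
    · exact hψ.continuous.continuousOn.smul hFc
    · intro z hz
      simp [image_eq_zero_of_notMem_tsupport hz]
  · intro x _
    exact hψ.differentiable one_ne_zero x
  · intro x hx
    exact (hF.differentiableOn one_ne_zero).differentiableAt (hV.mem_nhds (hs hx))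

/-- A holomorphic function has zero weak d-bar derivative. -/
theorem integral_holo_dbar {A : ℂ → ℂ} {ψ : ℂ → ℝ} {V : Set ℂ} (hV : IsOpen V)
    (hA : DifferentiableOn ℂ A V) (hψ : ContDiff ℝ 1 ψ) (hc : HasCompactSupport ψ)
    (hs : tsupport ψ ⊆ V) : ∫ z, A z * dbar ψ z = 0 := by
  have hA1 : ContDiffOn ℝ 1 A V := (hA.contDiffOn hV).restrict_scalars ℝ
  have h1 := ibp hV hA1 hψ hc hs 1
  have h2 := ibp hV hA1 hψ hc hs I
  have hAc : ContinuousOn A (tsupport ψ) := hA.continuousOn.mono hs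
  have hi : ∀ v, Integrable fun z => fderiv ℝ ψ z v • A z := by
    intro v
    apply integrable_of_continuousOn_of_zero hc
    · exact (continuous_fderiv_apply hψ v).continuousOn.smul hAc
    · intro z hz
      simp [fderiv_eq_zero_of_notMem hz]
  have e1 : (fun z => A z * dbar ψ z) =
      fun z => fderiv ℝ ψ z 1 • A z + I * (fderiv ℝ ψ z I • A z) := by
    ext z
    simp only [dbar, real_smul]
    ring
  have e2 : (fun z => ψ z • fderiv ℝ A z I) = fun z => I * (ψ z • fderiv ℝ A z 1) := by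
    ext z
    by_cases hz : z ∈ tsupport ψ
    · have hd : DifferentiableAt ℂ A z := hA.differentiableAt (hV.mem_nhds (hs hz))
      rw [hd.fderiv_restrictScalars ℝ]
      simp only [ContinuousLinearMap.coe_restrictScalars', real_smul]
      have : fderiv ℂ A z I = I * fderiv ℂ A z 1 := by
        rw [← smul_eq_mul, ← map_smul]
        simp
      rw [this]
      ring
    · simp [image_eq_zero_of_notMem_tsupport hz]
  rw [e1, integral_add (hi 1) ((hi I).const_mul I), integral_const_mul]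
  rw [e2, integral_const_mul, h1] at h2
  have h3 : ∫ z, fderiv ℝ ψ z I • A z = I * ∫ z, fderiv ℝ ψ z 1 • A z := by
    linear_combination h2
  rw [h3]
  linear_combination (∫ z, fderiv ℝ ψ z 1 • A z) * I_mul_I

theorem polar_integrable {ψ : ℂ → ℝ} (hψ : ContDiff ℝ 1 ψ) (hc : HasCompactSupport ψ) (c : ℂ) :
    IntegrableOn (fun p : ℝ × ℝ => fderiv ℝ ψ (p.1 * exp (p.2 * I)) (c * exp (p.2 * I)))
      (Ioi (0 : ℝ) ×ˢ Ioo (-Real.pi) Real.pi) := by
  obtain ⟨R, hR⟩ := hc.isCompact.isBounded.subset_closedBall 0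
  have hcont : Continuous
      (fun p : ℝ × ℝ => fderiv ℝ ψ (p.1 * exp (p.2 * I)) (c * exp (p.2 * I))) := by
    have := hψ.continuous_fderiv one_ne_zero
    fun_prop
  have hK : IsCompact (Icc (0 : ℝ) R ×ˢ Icc (-Real.pi) Real.pi) := isCompact_Icc.prod isCompact_Icc
  refine (hcont.continuousOn.integrableOn_compact hK).of_forall_sdiff_eq_zero
    (measurableSet_Ioi.prod measurableSet_Ioo) ?_
  rintro ⟨r, θ⟩ ⟨⟨hr, hθ⟩, hn⟩
  have hr' : 0 < r := hr
  have hRr : R < r := by
    by_contra h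
    exact hn ⟨⟨hr'.le, not_lt.1 h⟩, Ioo_subset_Icc_self hθ⟩
  have : (r : ℂ) * exp (θ * I) ∉ tsupport ψ := by
    intro h
    have := hR h
    rw [mem_closedBall_zero_iff, norm_mul, norm_exp_ofReal_mul_I, mul_one, norm_real,
      Real.norm_of_nonneg hr'.le] at this
    linarith
  simp [fderiv_eq_zero_of_notMem this]

theorem polar_radial {ψ : ℂ → ℝ} (hψ : ContDiff ℝ 1 ψ) (hc : HasCompactSupport ψ) (θ : ℝ) :
    ∫ r in Ioi (0 : ℝ), fderiv ℝ ψ (r * exp (θ * I)) (1 * exp (θ * I)) = - ψ 0 := by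
  have hg : ContDiff ℝ 1 (fun r : ℝ => ψ (r * exp (θ * I))) :=
    hψ.comp (ofRealCLM.contDiff.mul contDiff_const)
  have hcs : HasCompactSupport (fun r : ℝ => ψ (r * exp (θ * I))) := by
    obtain ⟨R, hR⟩ := hc.isCompact.isBounded.subset_closedBall 0
    apply HasCompactSupport.intro (isCompact_closedBall (0 : ℝ) R)
    intro r hr
    apply image_eq_zero_of_notMem_tsupport
    intro h
    have := hR h
    rw [mem_closedBall_zero_iff, norm_mul, norm_exp_ofReal_mul_I, mul_one, norm_real] at this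
    exact hr (mem_closedBall_zero_iff.2 this)
  have h := hcs.integral_Ioi_deriv_eq hg 0
  simp only [ofReal_zero, zero_mul] at h
  rw [← h]
  congr 1
  ext r
  have h1 : HasDerivAt (fun r : ℝ => (r : ℂ) * exp (θ * I)) (1 * exp (θ * I)) r :=
    (ofRealCLM.hasDerivAt (x := r)).mul_const _
  have h2 := (hψ.differentiable one_ne_zero (r * exp (θ * I))).hasFDerivAt.comp_hasDerivAt r h1
  exact h2.deriv.symm

theorem polar_angular {ψ : ℂ → ℝ} (hψ : ContDiff ℝ 1 ψ) {r : ℝ} (hr : 0 < r) :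
    ∫ θ in Ioo (-Real.pi) Real.pi, fderiv ℝ ψ (r * exp (θ * I)) (I * exp (θ * I)) = 0 := by
  have hd : ∀ θ : ℝ, HasDerivAt (fun θ : ℝ => r⁻¹ * ψ (r * exp (θ * I)))
      (fderiv ℝ ψ (r * exp (θ * I)) (I * exp (θ * I))) θ := by
    intro θ
    have h0 : HasDerivAt (fun θ : ℝ => (θ : ℂ) * I) (1 * I) θ :=
      (ofRealCLM.hasDerivAt (x := θ)).mul_const _
    have h1 : HasDerivAt (fun θ : ℝ => (r : ℂ) * exp (θ * I)) (r * (exp (θ * I) * (1 * I))) θ :=
      h0.cexp.const_mul _
    have h2 := (hψ.differentiable one_ne_zero (r * exp (θ * I))).hasFDerivAt.comp_hasDerivAt θ h1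
    have h3 := h2.const_mul r⁻¹
    have : (r : ℂ) * (exp (θ * I) * (1 * I)) = r • (I * exp (θ * I)) := by
      rw [real_smul]; ring
    rw [this, map_smul, smul_eq_mul, ← mul_assoc, inv_mul_cancel₀ hr.ne', one_mul] at h3
    exact h3
  have hcont : Continuous (fun θ : ℝ => fderiv ℝ ψ (r * exp (θ * I)) (I * exp (θ * I))) := by
    have := hψ.continuous_fderiv one_ne_zero
    fun_prop
  have h := intervalIntegral.integral_eq_sub_of_hasDerivAt (a := -Real.pi) (b := Real.pi)
    (fun θ _ => hd θ) (hcont.intervalIntegrable _ _)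
  rw [intervalIntegral.integral_of_le (by linarith [Real.pi_pos]), integral_Ioc_eq_integral_Ioo] at h
  rw [h]
  simp [exp_neg, exp_pi_mul_I]

/-- Cauchy-Pompeiu formula at the origin. -/
theorem pompeiu_zero {ψ : ℂ → ℝ} (hψ : ContDiff ℝ 1 ψ) (hc : HasCompactSupport ψ) :
    ∫ z, z⁻¹ * dbar ψ z = -(2 * Real.pi) * ψ 0 := by
  rw [← Complex.integral_comp_polarCoord_symm]
  have hmeas : MeasurableSet (Ioi (0 : ℝ) ×ˢ Ioo (-Real.pi) Real.pi) :=
    measurableSet_Ioi.prod measurableSet_Ioo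
  have e : ∀ p ∈ Ioi (0 : ℝ) ×ˢ Ioo (-Real.pi) Real.pi,
      p.1 • ((Complex.polarCoord.symm p)⁻¹ * dbar ψ (Complex.polarCoord.symm p)) =
      ((fderiv ℝ ψ (p.1 * exp (p.2 * I)) (1 * exp (p.2 * I)) : ℝ) : ℂ) +
        I * ((fderiv ℝ ψ (p.1 * exp (p.2 * I)) (I * exp (p.2 * I)) : ℝ) : ℂ) := by
    rintro ⟨r, θ⟩ ⟨hr, -⟩
    have hr' : (r : ℂ) ≠ 0 := by
      have : 0 < r := hr
      exact_mod_cast this.ne'
    have hp : Complex.polarCoord.symm (r, θ) = r * exp (θ * I) := by
      rw [Complex.polarCoord_symm_apply, exp_mul_I]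
      simp
    rw [hp]
    have h1 : (1 : ℂ) * exp (θ * I) = Real.cos θ • (1 : ℂ) + Real.sin θ • I := by
      rw [exp_mul_I]; simp
    have h2 : I * exp (θ * I) = (-Real.sin θ) • (1 : ℂ) + Real.cos θ • I := by
      rw [exp_mul_I]
      simp only [real_smul, ofReal_neg, ofReal_sin, ofReal_cos]
      linear_combination (sin (θ : ℂ)) * I_mul_I
    have h3 : (exp (θ * I))⁻¹ = (Real.cos θ : ℂ) - I * Real.sin θ := by
      rw [← exp_neg, ← neg_mul, exp_mul_I]
      simp only [cos_neg, sin_neg, ofReal_cos, ofReal_sin]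
      ring
    simp only
    rw [h1, h2, mul_inv, h3, map_add, map_add, map_smul, map_smul, map_smul, map_smul, dbar]
    generalize fderiv ℝ ψ (r * exp (θ * I)) 1 = a
    generalize fderiv ℝ ψ (r * exp (θ * I)) I = b
    simp only [smul_eq_mul, real_smul]
    push_cast
    field_simp
    linear_combination (- sin (θ : ℂ) * (b : ℂ)) * I_mul_I
  change ∫ p in Ioi (0 : ℝ) ×ˢ Ioo (-Real.pi) Real.pi, _ = _
  rw [setIntegral_congr_fun hmeas e]
  have i1 := polar_integrable hψ hc 1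
  have i2 := polar_integrable hψ hc I
  have j1 : Integrable (fun p : ℝ × ℝ =>
      ((fderiv ℝ ψ (p.1 * exp (p.2 * I)) (1 * exp (p.2 * I)) : ℝ) : ℂ))
      (volume.restrict (Ioi (0 : ℝ) ×ˢ Ioo (-Real.pi) Real.pi)) := Integrable.ofReal i1
  have j2 : Integrable (fun p : ℝ × ℝ =>
      ((fderiv ℝ ψ (p.1 * exp (p.2 * I)) (I * exp (p.2 * I)) : ℝ) : ℂ))
      (volume.restrict (Ioi (0 : ℝ) ×ˢ Ioo (-Real.pi) Real.pi)) := Integrable.ofReal i2
  rw [integral_add j1 (j2.const_mul I), integral_const_mul, integral_complex_ofReal,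
    integral_complex_ofReal]
  have v1 : ∫ p in Ioi (0 : ℝ) ×ˢ Ioo (-Real.pi) Real.pi,
      fderiv ℝ ψ (p.1 * exp (p.2 * I)) (1 * exp (p.2 * I)) = -(2 * Real.pi) * ψ 0 := by
    rw [Measure.volume_eq_prod] at i1 ⊢
    simp only [← Measure.prod_restrict, IntegrableOn] at i1 ⊢
    rw [integral_prod_symm _ i1]
    simp only [polar_radial hψ hc]
    rw [setIntegral_const, Real.volume_real_Ioo_of_le (by linarith [Real.pi_pos])]
    simp only [smul_eq_mul]
    ring
  have v2 : ∫ p in Ioi (0 : ℝ) ×ˢ Ioo (-Real.pi) Real.pi,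
      fderiv ℝ ψ (p.1 * exp (p.2 * I)) (I * exp (p.2 * I)) = 0 := by
    rw [Measure.volume_eq_prod] at i2 ⊢
    rw [setIntegral_prod _ i2]
    rw [setIntegral_congr_fun measurableSet_Ioi (g := fun _ => 0)
      (fun r hr => polar_angular hψ hr)]
    simp
  rw [v1, v2]
  push_cast
  ring

end Pool.Agent.MP_46692b_an.H26
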