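import Pool.Agent.MP_46692b_an.H26.Mono

/-!
Induction on the number of holomorphic branches.
-/

open MeasureTheory Filter Topology Set Complex
open scoped Pointwise

namespace Pool.Agent.MP_46692b_an.H26

/-- `P` holds almost everywhere in a neighbourhood of `z`. -/
def AeNear (P : ℂ → Prop) (z : ℂ) : Prop :=
  ∃ O : Set ℂ, IsOpen O ∧ z ∈ O ∧ ∀ᵐ w, w ∈ O → P w

theorem isOpen_aeNear (P : ℂ → Prop) : IsOpen {z | AeNear P z} := by
  rw [isOpen_iff_mem_nhds]
  rintro z ⟨O, hO, hz, h⟩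
  filter_upwards [hO.mem_nhds hz] with w hw
  exact ⟨O, hO, hw, h⟩

theorem null_boundary {P : ℂ → Prop} {W Z : Set ℂ} (hW : IsOpen W) (hZ : ∀ᵐ z, z ∈ Z) {u : ℂ}
    {η : ℝ} (hη : 0 < η)
    (hmono : ∀ z ∈ Z ∩ W, ∀ z' ∈ Z ∩ W, ∀ t : ℝ, 0 < t → ‖z' - z - t • u‖ < t * η → P z → P z') :
    volume {z ∈ W | ¬ AeNear (fun w => ¬ P w) z ∧ ¬ AeNear P z} = 0 := by
  set S := {z ∈ W | ¬ AeNear (fun w => ¬ P w) z ∧ ¬ AeNear P z} with hS
  have hstep : ∀ z ∈ S, ∀ t : ℝ, 0 < t → z + t • u ∉ S := by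
    rintro z ⟨hzW, hz1, -⟩ t ht ⟨hz'W, -, hz2⟩
    apply hz2
    have hδ : 0 < t * η / 2 := by positivity
    obtain ⟨z1, hz1Z, hz1O, hz1P⟩ : ∃ z1 ∈ Z, z1 ∈ Metric.ball z (t * η / 2) ∩ W ∧ P z1 := by
      by_contra hcon
      apply hz1
      refine ⟨Metric.ball z (t * η / 2) ∩ W, Metric.isOpen_ball.inter hW,
        ⟨Metric.mem_ball_self hδ, hzW⟩, ?_⟩
      filter_upwards [hZ] with w hw hwO hP
      exact hcon ⟨w, hw, hwO, hP⟩
    refine ⟨Metric.ball (z + t • u) (t * η / 2) ∩ W, Metric.isOpen_ball.inter hW,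
      ⟨Metric.mem_ball_self hδ, hz'W⟩, ?_⟩
    filter_upwards [hZ] with w hw hwO
    refine hmono z1 ⟨hz1Z, hz1O.2⟩ w ⟨hw, hwO.2⟩ t ht ?_ hz1P
    have h1 : ‖z1 - z‖ < t * η / 2 := by
      rw [← dist_eq_norm]; exact hz1O.1
    have h2 : ‖w - (z + t • u)‖ < t * η / 2 := by
      rw [← dist_eq_norm]; exact hwO.1
    have h3 : w - z1 - t • u = (w - (z + t • u)) - (z1 - z) := by abel
    rw [h3]
    have := norm_sub_le (w - (z + t • u)) (z1 - z)
    linarith
  have hSm : MeasurableSet S := by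
    have : S = W ∩ ({z | AeNear (fun w => ¬ P w) z}ᶜ ∩ {z | AeNear P z}ᶜ) := rfl
    rw [this]
    exact hW.measurableSet.inter
      ((isOpen_aeNear _).measurableSet.compl.inter (isOpen_aeNear _).measurableSet.compl)
  apply Measure.addHaar_eq_zero_of_disjoint_translates volume
    (fun n : ℕ => (1 / ((n : ℝ) + 1)) • u) _ _ hSm
  · apply Metric.isBounded_range_of_tendsto
    exact (tendsto_one_div_add_atTop_nhds_zero_nat (𝕜 := ℝ)).smul_const u
  · rw [pairwise_disjoint_on]
    intro n m hnm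
    rw [Set.disjoint_left]
    rintro x ⟨a, ha, s, hs, rfl⟩ ⟨b, hb, s', hs', h⟩
    rw [mem_singleton_iff] at ha hb
    subst ha hb
    have ht : 0 < 1 / ((n : ℝ) + 1) - 1 / ((m : ℝ) + 1) := by
      have : (n : ℝ) + 1 < (m : ℝ) + 1 := by exact_mod_cast Nat.succ_lt_succ hnm
      have := one_div_lt_one_div_of_lt (by positivity) this
      linarith
    apply hstep s hs _ ht
    have : s + (1 / ((n : ℝ) + 1) - 1 / ((m : ℝ) + 1)) • u = s' := by
      simp only at h
      rw [sub_smul]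
      linear_combination -h
    rwa [this]

theorem exists_extreme {ι : Type*} {s : Finset ι} (hs : s.Nonempty) (a : ι → ℂ)
    (hinj : ∀ i ∈ s, ∀ j ∈ s, i ≠ j → a i ≠ a j) :
    ∃ i ∈ s, ∃ u : ℂ, u ≠ 0 ∧ ∀ j ∈ s, j ≠ i → 0 < (u * (a j - a i)).re := by
  obtain ⟨i, hi, hmax⟩ := s.exists_max_image (fun j => normSq (a j)) hs
  refine ⟨i, hi, ?_⟩
  by_cases h0 : a i = 0
  · refine ⟨1, one_ne_zero, fun j hj hji => ?_⟩
    exfalso
    have h1 := hmax j hj
    rw [h0, normSq_zero] at h1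
    have h2 : a j = 0 := normSq_eq_zero.1 (le_antisymm h1 (normSq_nonneg _))
    exact hinj j hj i hi hji (h2.trans h0.symm)
  · refine ⟨-(starRingEnd ℂ) (a i), by simpa using h0, fun j hj hji => ?_⟩
    have h1 := hmax j hj
    have h2 : 0 < normSq (a j - a i) := normSq_pos.2 (sub_ne_zero.2 (hinj j hj i hi hji))
    simp only [normSq_apply, sub_re, sub_im] at h1 h2
    simp only [mul_re, neg_re, conj_re, sub_re, neg_im, conj_im, sub_im]
    nlinarith

/-- `f` has weak d-bar derivative `2π μ`. -/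
def WeakEq (μ : Measure ℂ) (f : ℂ → ℂ) : Prop :=
  ∀ ψ : ℂ → ℝ, ContDiff ℝ 1 ψ → HasCompactSupport ψ →
    ∫ z, f z * dbar ψ z = -(2 * Real.pi) * (∫ ζ, ψ ζ ∂μ : ℝ)

theorem notMem_support_of_holo (μ : Measure ℂ) [IsFiniteMeasure μ] {f : ℂ → ℂ} (hf : WeakEq μ f)
    {A : ℂ → ℂ} {O : Set ℂ} (hO : IsOpen O) (hA : DifferentiableOn ℂ A O)
    (hfA : ∀ᵐ w, w ∈ O → f w = A w) {z : ℂ} (hz : z ∈ O) : z ∉ μ.support := by
  obtain ⟨n, hn⟩ := (eventually_test_subset (isCompact_singleton (x := z)) hO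
    (singleton_subset_iff.2 hz)).exists
  have hn' := hn z rfl
  have h1 := hf _ (test_contDiff n z) (test_compact n z)
  have h2 := integral_holo_dbar hO hA (test_contDiff n z) (test_compact n z) hn'
  have h3 : ∫ w, f w * dbar (test n z) w = ∫ w, A w * dbar (test n z) w := by
    apply integral_congr_ae
    filter_upwards [hfA] with w hw
    by_cases hwO : w ∈ O
    · rw [hw hwO]
    · rw [dbar_eq_zero_of_notMem (fun h => hwO (hn' h)), mul_zero, mul_zero]
  rw [h3, h2] at h1
  have h4 : ∫ ζ, test n z ζ ∂μ = 0 := by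
    have h5 : (-(2 * Real.pi) : ℂ) ≠ 0 := by
      have := Real.pi_pos
      exact_mod_cast (by linarith : -(2 * Real.pi) ≠ 0)
    exact_mod_cast (mul_eq_zero.1 h1.symm).resolve_left h5
  rw [integral_eq_zero_iff_of_nonneg (test_nonneg n z)
    ((test_contDiff n z).continuous.integrable_of_hasCompactSupport (test_compact n z))] at h4
  rw [Measure.notMem_support_iff_exists]
  refine ⟨Function.support (test n z), ?_, h4⟩
  apply (test_contDiff n z).continuous.isOpen_support.mem_nhds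
  have : z - z ∈ Function.support ((bump n).normed volume) := by
    rw [ContDiffBump.support_normed_eq, sub_self]
    exact Metric.mem_ball_self (bump n).rOut_pos
  exact this

theorem weakPos_sub (μ : Measure ℂ) {f : ℂ → ℂ} (hm : AEStronglyMeasurable f) (hf : WeakEq μ f)
    {A : ℂ → ℂ} {V : Set ℂ} (hV : IsOpen V) (hA : DifferentiableOn ℂ A V) {M : ℝ}
    (hM : ∀ᵐ z, ‖V.indicator (fun z => f z - A z) z‖ ≤ M) :
    AEStronglyMeasurable (V.indicator fun z => f z - A z) ∧
      WeakPos (V.indicator fun z => f z - A z) V := by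
  have hmeas : AEStronglyMeasurable (V.indicator fun z => f z - A z) := by
    rw [aestronglyMeasurable_indicator_iff hV.measurableSet]
    exact hm.restrict.sub (hA.continuousOn.aestronglyMeasurable hV.measurableSet)
  refine ⟨hmeas, fun ψ hψ hc hs h0 => ⟨2 * Real.pi * ∫ ζ, ψ ζ ∂μ, ?_, ?_⟩⟩
  · exact mul_nonneg (by positivity) (integral_nonneg h0)
  have hd : Integrable (dbar ψ) :=
    integrable_of_continuousOn_of_zero hc (continuous_dbar hψ).continuousOn
      (fun z hz => dbar_eq_zero_of_notMem hz)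
  have i1 : Integrable fun z => V.indicator (fun z => f z - A z) z * dbar ψ z :=
    hd.bdd_mul hmeas hM
  have i2 : Integrable fun z => A z * dbar ψ z :=
    integrable_of_continuousOn_of_zero hc
      ((hA.continuousOn.mono hs).mul (continuous_dbar hψ).continuousOn)
      (fun z hz => by rw [dbar_eq_zero_of_notMem hz, mul_zero])
  have e : (fun z => f z * dbar ψ z) =
      fun z => V.indicator (fun z => f z - A z) z * dbar ψ z + A z * dbar ψ z := by
    ext z
    by_cases hz : z ∈ V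
    · rw [indicator_of_mem hz]; ring
    · rw [dbar_eq_zero_of_notMem (fun h => hz (hs h))]; ring
  have h1 := hf ψ hψ hc
  rw [e, integral_add i1 i2, integral_holo_dbar hV hA hψ hc hs, add_zero] at h1
  rw [h1]
  push_cast
  ring

theorem support_null (μ : Measure ℂ) [IsFiniteMeasure μ] {f : ℂ → ℂ}
    (hm : AEStronglyMeasurable f) (hf : WeakEq μ f) {ι : Type*} (A : ι → ℂ → ℂ) (s : Finset ι) :
    ∀ U : Set ℂ, IsOpen U → (∀ i ∈ s, DifferentiableOn ℂ (A i) U) →
      (∀ z ∈ U, ∀ i ∈ s, ∀ j ∈ s, i ≠ j → A i z ≠ A j z) →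
      (∀ᵐ z, z ∈ U → ∃ i ∈ s, f z = A i z) → volume (μ.support ∩ U) = 0 := by
  classical
  induction s using Finset.strongInduction with
  | H s ih =>
  intro U hU hA hne hae
  rcases s.eq_empty_or_nonempty with rfl | hs
  · apply measure_mono_null inter_subset_right
    rw [measure_eq_zero_iff_ae_notMem]
    filter_upwards [hae] with z hz hzU
    simpa using hz hzU
  apply measure_null_of_locally_null
  rintro p ⟨-, hp⟩
  obtain ⟨i, hi, u, hu0, hu⟩ := exists_extreme hs (fun j => A j p) (hne p hp)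
  have hcont : ∀ j ∈ s, ContinuousAt (A j) p := fun j hj =>
    ((hA j hj).differentiableAt (hU.mem_nhds hp)).continuousAt
  have hev : ∀ᶠ q : ℂ × ℂ in 𝓝 (u, p), q.2 ∈ U ∧ ∀ j ∈ s,
      (j ≠ i → 0 < (q.1 * (A j q.2 - A i q.2)).re) ∧
        ‖A j q.2 - A i q.2‖ < (∑ k ∈ s, ‖A k p - A i p‖) + 1 := by
    refine (continuous_snd.continuousAt.eventually_mem (hU.mem_nhds hp)).and ?_
    rw [eventually_all_finset]
    intro j hj
    have c1 : ContinuousAt (fun q : ℂ × ℂ => A j q.2 - A i q.2) (u, p) :=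
      ((hcont j hj).comp_of_eq continuousAt_snd rfl).sub
        ((hcont i hi).comp_of_eq continuousAt_snd rfl)
    apply Eventually.and
    · by_cases hji : j = i
      · filter_upwards with q h using absurd hji h
      · have c2 : ContinuousAt (fun q : ℂ × ℂ => (q.1 * (A j q.2 - A i q.2)).re) (u, p) :=
          continuous_re.continuousAt.comp (continuousAt_fst.mul c1)
        filter_upwards [c2.eventually (lt_mem_nhds (hu j hj hji))] with q hq _ using hq
    · apply c1.norm.eventually (gt_mem_nhds _)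
      have := Finset.single_le_sum (f := fun k => ‖A k p - A i p‖) (fun k _ => norm_nonneg _) hj
      simp only at this ⊢
      linarith
  obtain ⟨η, hη, hball⟩ := Metric.eventually_nhds_iff_ball.1 hev
  rw [← ball_prod_same] at hball
  set V := Metric.ball p η with hV
  have hVU : V ⊆ U := fun z hz => (hball (u, z) ⟨Metric.mem_ball_self hη, hz⟩).1
  set g := V.indicator (fun z => f z - A i z) with hg
  have hgM : ∀ᵐ z, ‖g z‖ ≤ (∑ k ∈ s, ‖A k p - A i p‖) + 1 := by
    filter_upwards [hae] with z hz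
    by_cases hzV : z ∈ V
    · obtain ⟨j, hj, hfj⟩ := hz (hVU hzV)
      rw [hg, indicator_of_mem hzV, hfj]
      exact ((hball (u, z) ⟨Metric.mem_ball_self hη, hzV⟩).2 j hj).2.le
    · rw [hg, indicator_of_notMem hzV, norm_zero]
      positivity
  obtain ⟨hgm, hgw⟩ := weakPos_sub μ hm hf Metric.isOpen_ball ((hA i hi).mono hVU) hgM
  have hKV : Metric.closedBall p (η / 2) ⊆ V := Metric.closedBall_subset_ball (by linarith)
  obtain ⟨Z, hZ, hmono⟩ := ae_mono hgm hgM Metric.isOpen_ball hgw (isCompact_closedBall p (η / 2))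
    (convex_closedBall p (η / 2)) hKV
  set W := Metric.ball p (η / 2) with hW
  have hWK : W ⊆ Metric.closedBall p (η / 2) := Metric.ball_subset_closedBall
  have hnull := null_boundary (P := fun z => g z ≠ 0) (W := W) Metric.isOpen_ball hZ (u := u) hη (by
    intro z hz z' hz' t ht hlt
    apply hmono z ⟨hz.1, hWK hz.2⟩ z' ⟨hz'.1, hWK hz'.2⟩
    have hv : t⁻¹ • (z' - z) ∈ Metric.ball u η := by
      rw [Metric.mem_ball, dist_eq_norm]
      have : t⁻¹ • (z' - z) - u = t⁻¹ • (z' - z - t • u) := by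
        rw [smul_sub t⁻¹ (z' - z), smul_smul, inv_mul_cancel₀ ht.ne', one_smul]
      rw [this, norm_smul, norm_inv, Real.norm_of_nonneg ht.le, inv_mul_lt_iff₀ ht]
      exact hlt
    filter_upwards [hae] with w hw
    by_cases hwV : w ∈ V
    · obtain ⟨j, hj, hfj⟩ := hw (hVU hwV)
      show 0 ≤ ((z' - z) * V.indicator (fun z => f z - A i z) w).re
      rw [indicator_of_mem hwV, hfj]
      by_cases hji : j = i
      · simp [hji]
      · have h1 := ((hball (t⁻¹ • (z' - z), w) ⟨hv, hwV⟩).2 j hj).1 hji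
        simp only [smul_mul_assoc, smul_re, smul_eq_mul] at h1
        exact ((mul_pos_iff_of_pos_left (inv_pos.2 ht)).1 h1).le
    · show 0 ≤ ((z' - z) * V.indicator (fun z => f z - A i z) w).re
      simp [indicator_of_notMem hwV])
  have hWV : W ⊆ V := hWK.trans hKV
  set U' := W ∩ {z | AeNear (fun z => g z ≠ 0) z} with hU'
  have hU'o : IsOpen U' := Metric.isOpen_ball.inter (isOpen_aeNear _)
  have hU'U : U' ⊆ U := inter_subset_left.trans (hWV.trans hVU)
  have hU'ae : ∀ᵐ z, z ∈ U' → g z ≠ 0 := by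
    have : volume (U' ∩ {z | g z = 0}) = 0 := by
      apply measure_null_of_locally_null
      rintro z ⟨⟨-, O, hO, hzO, hOae⟩, -⟩
      refine ⟨O ∩ {z | g z = 0}, ?_, ?_⟩
      · apply inter_mem (mem_nhdsWithin_of_mem_nhds (hO.mem_nhds hzO))
        exact mem_of_superset self_mem_nhdsWithin inter_subset_right
      · rw [measure_eq_zero_iff_ae_notMem]
        filter_upwards [hOae] with w hw h
        exact hw h.1 h.2
    rw [measure_eq_zero_iff_ae_notMem] at this
    filter_upwards [this] with w hw h1 h2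
    exact hw ⟨h1, h2⟩
  have hind := ih (s.erase i) (Finset.erase_ssubset hi) U' hU'o
    (fun j hj => (hA j (Finset.mem_of_mem_erase hj)).mono hU'U)
    (fun z hz j hj k hk => hne z (hU'U hz) j (Finset.mem_of_mem_erase hj) k
      (Finset.mem_of_mem_erase hk))
    (by
      filter_upwards [hae, hU'ae] with z hz hz' hzU'
      obtain ⟨j, hj, hfj⟩ := hz (hU'U hzU')
      refine ⟨j, Finset.mem_erase.2 ⟨?_, hj⟩, hfj⟩
      rintro rfl
      apply hz' hzU'
      rw [hg, indicator_of_mem (hWV hzU'.1), hfj, sub_self])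
  refine ⟨μ.support ∩ W, ?_, ?_⟩
  · apply inter_mem
    · exact mem_of_superset self_mem_nhdsWithin inter_subset_left
    · exact mem_nhdsWithin_of_mem_nhds (Metric.ball_mem_nhds p (by linarith))
  · apply measure_mono_null _ (measure_union_null hnull hind)
    rintro z ⟨hzs, hzW⟩
    by_cases h1 : AeNear (fun z => g z ≠ 0) z
    · exact Or.inr ⟨hzs, hzW, h1⟩
    · refine Or.inl ⟨hzW, ?_, h1⟩
      rintro ⟨O, hO, hzO, hOae⟩
      refine notMem_support_of_holo μ hf (O := O ∩ W) (hO.inter Metric.isOpen_ball)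
        ((hA i hi).mono (inter_subset_right.trans (hWV.trans hVU))) ?_ ⟨hzO, hzW⟩ hzs
      filter_upwards [hOae] with w hw hwO
      have h2 := not_not.1 (hw hwO.1)
      rw [hg, indicator_of_mem (hWV hwO.2)] at h2
      exact sub_eq_zero.1 h2

end Pool.Agent.MP_46692b_an.H26
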