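import Pool.Agent.MP_46692b_an.H26.Dbar

/-!
Mollification in the plane.
-/

open MeasureTheory Filter Topology Set Complex ContinuousLinearMap
open scoped Convolution

namespace Pool.Agent.MP_46692b_an.H26

noncomputable def bump (n : ℕ) : ContDiffBump (0 : ℂ) where
  rIn := 1 / (2 * ((n : ℝ) + 1))
  rOut := 1 / ((n : ℝ) + 1)
  rIn_pos := by positivity
  rIn_lt_rOut := by
    apply one_div_lt_one_div_of_lt
    · positivity
    · have : (0 : ℝ) < (n : ℝ) + 1 := by positivity
      linarith

noncomputable def ph (n : ℕ) : ℂ → ℝ := (bump n).normed volume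

noncomputable def test (n : ℕ) (z : ℂ) : ℂ → ℝ := fun t => ph n (z - t)

theorem ph_contDiff (n : ℕ) : ContDiff ℝ 1 (ph n) := (bump n).contDiff_normed (n := 1)

theorem ph_compact (n : ℕ) : HasCompactSupport (ph n) := (bump n).hasCompactSupport_normed

theorem test_contDiff (n : ℕ) (z : ℂ) : ContDiff ℝ 1 (test n z) :=
  (ph_contDiff n).comp (contDiff_const.sub contDiff_id)

theorem test_nonneg (n : ℕ) (z t : ℂ) : 0 ≤ test n z t := (bump n).nonneg_normed _

theorem test_tsupport (n : ℕ) (z : ℂ) :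
    tsupport (test n z) ⊆ Metric.closedBall z (1 / ((n : ℝ) + 1)) := by
  apply closure_minimal _ Metric.isClosed_closedBall
  intro t ht
  have h : z - t ∈ Function.support ((bump n).normed volume) := ht
  rw [ContDiffBump.support_normed_eq, mem_ball_zero_iff] at h
  rw [Metric.mem_closedBall, dist_comm, dist_eq_norm]
  exact h.le

theorem test_compact (n : ℕ) (z : ℂ) : HasCompactSupport (test n z) :=
  (isCompact_closedBall z _).of_isClosed_subset (isClosed_tsupport _) (test_tsupport n z)

theorem test_integral (n : ℕ) (z : ℂ) : ∫ t, test n z t = 1 := by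
  unfold test
  rw [integral_sub_left_eq_self (ph n) volume z]
  exact (bump n).integral_normed

theorem test_integrable (n : ℕ) (z : ℂ) : Integrable (test n z) :=
  (test_contDiff n z).continuous.integrable_of_hasCompactSupport (test_compact n z)

theorem fderiv_test (n : ℕ) (z t v : ℂ) :
    fderiv ℝ (test n z) t v = - fderiv ℝ (ph n) (z - t) v := by
  have h1 : HasFDerivAt (fun t : ℂ => z - t) (-(ContinuousLinearMap.id ℝ ℂ)) t :=
    (hasFDerivAt_id t).const_sub z
  have h2 := ((ph_contDiff n).differentiable one_ne_zero (z - t)).hasFDerivAt.comp t h1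
  have h3 : fderiv ℝ (test n z) t = _ := h2.fderiv
  rw [h3]
  simp

variable {E : Type*} [NormedAddCommGroup E] [NormedSpace ℝ E]

noncomputable def moll (n : ℕ) (g : ℂ → E) : ℂ → E := ph n ⋆[lsmul ℝ ℝ, volume] g

theorem moll_eq (n : ℕ) (g : ℂ → E) (z : ℂ) : moll n g z = ∫ t, test n z t • g t :=
  convolution_lsmul_swap

theorem moll_contDiff (n : ℕ) {g : ℂ → E} (hg : LocallyIntegrable g) : ContDiff ℝ 1 (moll n g) :=
  (ph_compact n).contDiff_convolution_left (n := 1) _ (ph_contDiff n) hg

theorem fderiv_moll (n : ℕ) {g : ℂ → E} (hg : LocallyIntegrable g) (z v : ℂ) :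
    fderiv ℝ (moll n g) z v = - ∫ t, fderiv ℝ (test n z) t v • g t := by
  have h := (ph_compact n).hasFDerivAt_convolution_right (lsmul ℝ ℝ : ℝ →L[ℝ] E →L[ℝ] E).flip hg
    (ph_contDiff n) z
  rw [convolution_flip] at h
  have h2 : fderiv ℝ (moll n g) z = _ := h.fderiv
  rw [h2, convolution_precompR_apply _ hg ((ph_compact n).fderiv ℝ)
    ((ph_contDiff n).continuous_fderiv one_ne_zero), convolution_def, ← integral_neg]
  congr 1
  ext t
  simp [fderiv_test]

theorem moll_tendsto [CompleteSpace E] {g : ℂ → E} (hg : LocallyIntegrable g) :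
    ∀ᵐ z, Tendsto (fun n => moll n g z) atTop (𝓝 (g z)) := by
  apply ContDiffBump.ae_convolution_tendsto_right_of_locallyIntegrable (φ := bump) (K := 2) _ _ hg
  · exact tendsto_one_div_add_atTop_nhds_zero_nat
  · filter_upwards with n
    simp only [bump]
    apply le_of_eq
    field_simp

omit [NormedSpace ℝ E] in
theorem locallyIntegrable_of_bound {g : ℂ → E} (hm : AEStronglyMeasurable g) {M : ℝ}
    (hM : ∀ᵐ z, ‖g z‖ ≤ M) : LocallyIntegrable g := by
  rw [locallyIntegrable_iff]
  intro K hK
  exact Measure.integrableOn_of_bounded hK.measure_lt_top.ne hm (ae_restrict_of_ae hM)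

theorem integrable_smul_of_bound {g : ℂ → E} (hm : AEStronglyMeasurable g) {M : ℝ}
    (hM : ∀ᵐ z, ‖g z‖ ≤ M) {h : ℂ → ℝ} (hh : Integrable h) : Integrable fun t => h t • g t :=
  hh.smul_of_top_left (memLp_top_of_bound hm M hM)

theorem norm_moll_le (n : ℕ) {g : ℂ → E} {M : ℝ} (hM : ∀ᵐ z, ‖g z‖ ≤ M) (z : ℂ) :
    ‖moll n g z‖ ≤ M := by
  rw [moll_eq]
  have h := norm_integral_le_of_norm_le (f := fun t => test n z t • g t)
    ((test_integrable n z).mul_const M) (by
      filter_upwards [hM] with t ht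
      rw [norm_smul, Real.norm_of_nonneg (test_nonneg n z t)]
      exact mul_le_mul_of_nonneg_left ht (test_nonneg n z t))
  rwa [integral_mul_const, test_integral, one_mul] at h

theorem re_mul_moll_nonneg (n : ℕ) {g : ℂ → ℂ} (hm : AEStronglyMeasurable g) {M : ℝ}
    (hM : ∀ᵐ z, ‖g z‖ ≤ M) {u : ℂ} (hu : ∀ᵐ z, 0 ≤ (u * g z).re) (z : ℂ) :
    0 ≤ (u * moll n g z).re := by
  have hi := integrable_smul_of_bound hm hM (test_integrable n z)
  rw [moll_eq, ← integral_const_mul]
  have h := (integral_re (hi.const_mul u)).symm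
  simp only [RCLike.re_to_complex] at h
  rw [h]
  apply integral_nonneg_of_ae
  filter_upwards [hu] with t ht
  have : (u * (test n z t • g t)).re = test n z t * (u * g t).re := by
    rw [mul_smul_comm, smul_re, smul_eq_mul]
  simp only [Pi.zero_apply]
  rw [this]
  exact mul_nonneg (test_nonneg n z t) ht

theorem eventually_test_subset {K V : Set ℂ} (hK : IsCompact K) (hV : IsOpen V) (hKV : K ⊆ V) :
    ∀ᶠ n in atTop, ∀ z ∈ K, tsupport (test n z) ⊆ V := by
  obtain ⟨δ, hδ, h⟩ := hK.exists_cthickening_subset_open hV hKV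
  have h1 : ∀ᶠ n : ℕ in atTop, 1 / ((n : ℝ) + 1) ≤ δ :=
    (tendsto_one_div_add_atTop_nhds_zero_nat (𝕜 := ℝ)).eventually (ge_mem_nhds hδ)
  filter_upwards [h1] with n hn z hz
  refine (test_tsupport n z).trans (Subset.trans ?_ h)
  exact (Metric.closedBall_subset_closedBall hn).trans (Metric.closedBall_subset_cthickening hz δ)

end Pool.Agent.MP_46692b_an.H26
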