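import Pool.Agent.MP_46692b_an.H26.Moll

/-!
The logarithm trick: if `g` has a nonnegative weak d-bar derivative and takes values in a half
plane, then the set where `g` does not vanish is monotone in the corresponding direction.
-/

open MeasureTheory Filter Topology Set Complex

namespace Pool.Agent.MP_46692b_an.H26

/-- The weak d-bar derivative of `g` is nonnegative on `V`. -/
def WeakPos (g : ℂ → ℂ) (V : Set ℂ) : Prop :=
  ∀ ψ : ℂ → ℝ, ContDiff ℝ 1 ψ → HasCompactSupport ψ → tsupport ψ ⊆ V → (∀ z, 0 ≤ ψ z) →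
    ∃ c : ℝ, 0 ≤ c ∧ ∫ z, g z * dbar ψ z = -(c : ℂ)

theorem integrable_fderiv_apply {ψ : ℂ → ℝ} (hψ : ContDiff ℝ 1 ψ) (hc : HasCompactSupport ψ)
    (v : ℂ) : Integrable fun z => fderiv ℝ ψ z v :=
  integrable_of_continuousOn_of_zero hc (continuous_fderiv_apply hψ v).continuousOn
    (fun z hz => by simp [fderiv_eq_zero_of_notMem hz])

theorem dbar_moll {g : ℂ → ℂ} (hm : AEStronglyMeasurable g) {M : ℝ} (hM : ∀ᵐ z, ‖g z‖ ≤ M)
    {V : Set ℂ} (hw : WeakPos g V) {n : ℕ} {z : ℂ} (hz : tsupport (test n z) ⊆ V) :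
    ∃ c : ℝ, 0 ≤ c ∧ fderiv ℝ (moll n g) z 1 + I * fderiv ℝ (moll n g) z I = c := by
  obtain ⟨c, hc0, hc⟩ := hw _ (test_contDiff n z) (test_compact n z) hz (test_nonneg n z)
  refine ⟨c, hc0, ?_⟩
  have hl := locallyIntegrable_of_bound hm hM
  have hi : ∀ v, Integrable fun t => fderiv ℝ (test n z) t v • g t := fun v =>
    integrable_smul_of_bound hm hM (integrable_fderiv_apply (test_contDiff n z) (test_compact n z) v)
  rw [fderiv_moll n hl, fderiv_moll n hl]
  have e1 : (fun t => g t * dbar (test n z) t) =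
      fun t => fderiv ℝ (test n z) t 1 • g t + I * (fderiv ℝ (test n z) t I • g t) := by
    ext t
    simp only [dbar, real_smul]
    ring
  rw [e1, integral_add (hi 1) ((hi I).const_mul I), integral_const_mul] at hc
  linear_combination -hc

theorem clm_rot (D : ℂ →L[ℝ] ℂ) (u : ℂ) :
    D u + I * D (I * u) = (starRingEnd ℂ) u * (D 1 + I * D I) := by
  have h1 : u = u.re • (1 : ℂ) + u.im • I := by
    apply Complex.ext <;> simp
  have h2 : I * u = (-u.im) • (1 : ℂ) + u.re • I := by
    apply Complex.ext <;> simp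
  have h3 : (starRingEnd ℂ) u = u.re - u.im * I := by
    apply Complex.ext <;> simp
  have h4 : D u = u.re • D 1 + u.im • D I := by
    conv_lhs => rw [h1, map_add, map_smul, map_smul]
  rw [h4, h2, h3, map_add, map_smul, map_smul]
  simp only [real_smul]
  push_cast
  linear_combination (u.im * D I) * I_mul_I

theorem one_le_norm_of_re {w : ℂ} (hw : 0 ≤ w.re) : 1 ≤ ‖1 + w‖ := by
  have := re_le_norm (1 + w)
  simp only [add_re, one_re] at this
  linarith

theorem log_step {G : ℂ → ℂ} (hG : ContDiff ℝ 1 G) {u : ℂ} (hu : ∀ z, 0 ≤ (u * G z).re)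
    {ψ : ℂ → ℝ} (hψ : ContDiff ℝ 1 ψ) (hc : HasCompactSupport ψ) (h0 : ∀ z, 0 ≤ ψ z)
    (hpos : ∀ z ∈ tsupport ψ, ∃ c : ℝ, 0 ≤ c ∧ fderiv ℝ G z 1 + I * fderiv ℝ G z I = c)
    {N : ℝ} (hN : 0 ≤ N) :
    ∫ z, fderiv ℝ ψ z u * Real.log ‖1 + N * (u * G z)‖ ≤
      Real.pi * ∫ z, |fderiv ℝ ψ z (I * u)| := by
  have hre : ∀ z, 0 ≤ ((N : ℂ) * (u * G z)).re := by
    intro z
    rw [re_ofReal_mul]
    exact mul_nonneg hN (hu z)
  have hslit : ∀ z, 1 + N * (u * G z) ∈ slitPlane := by
    intro z
    left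
    have := hre z
    simp only [add_re, one_re]
    linarith
  set W : ℂ → ℂ := fun z => 1 + N * (u * G z) with hW
  have hWc : ContDiff ℝ 1 W := contDiff_const.add (contDiff_const.mul (contDiff_const.mul hG))
  set L : ℂ → ℂ := fun z => log (W z) with hL
  have hLc : ContDiff ℝ 1 L := by
    rw [contDiff_iff_contDiffAt]
    intro z
    exact ((contDiffAt_log (hslit z)).restrict_scalars ℝ).comp z hWc.contDiffAt
  have hLd : ∀ z v, fderiv ℝ L z v = (W z)⁻¹ * (N * (u * fderiv ℝ G z v)) := by
    intro z v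
    have h1 := (hG.differentiable one_ne_zero z).hasFDerivAt
    have h2 : HasFDerivAt W ((N : ℂ) • (u • fderiv ℝ G z)) z :=
      ((h1.const_mul u).const_mul (N : ℂ)).const_add 1
    have h3 := ((hasDerivAt_log (hslit z)).hasFDerivAt.restrictScalars ℝ).comp z h2
    have h4 : fderiv ℝ L z = _ := h3.fderiv
    rw [h4]
    simp [hW]
    ring
  set a : ℂ → ℝ := fun z => (L z).re with ha
  set b : ℂ → ℝ := fun z => (L z).im with hb
  have hac : ContDiff ℝ 1 a := reCLM.contDiff.comp hLc
  have hbc : ContDiff ℝ 1 b := imCLM.contDiff.comp hLc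
  have had : ∀ z v, fderiv ℝ a z v = (fderiv ℝ L z v).re := by
    intro z v
    have h1 := reCLM.hasFDerivAt.comp z (hLc.differentiable one_ne_zero z).hasFDerivAt
    have h2 : fderiv ℝ a z = _ := h1.fderiv
    rw [h2]
    simp
  have hbd : ∀ z v, fderiv ℝ b z v = (fderiv ℝ L z v).im := by
    intro z v
    have h1 := imCLM.hasFDerivAt.comp z (hLc.differentiable one_ne_zero z).hasFDerivAt
    have h2 : fderiv ℝ b z = _ := h1.fderiv
    rw [h2]
    simp
  have key : ∀ z, ψ z * fderiv ℝ b z (I * u) ≤ ψ z * fderiv ℝ a z u := by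
    intro z
    by_cases hz : z ∈ tsupport ψ
    · apply mul_le_mul_of_nonneg_left _ (h0 z)
      obtain ⟨c, hc0, hc⟩ := hpos z hz
      have h1 := clm_rot (fderiv ℝ G z) u
      rw [hc] at h1
      have h2 : fderiv ℝ L z u + I * fderiv ℝ L z (I * u) =
          ((N * normSq u * c : ℝ) : ℂ) * (W z)⁻¹ := by
        rw [hLd, hLd]
        push_cast
        rw [normSq_eq_conj_mul_self]
        linear_combination (W z)⁻¹ * N * u * h1
      have h3 : 0 ≤ ((W z)⁻¹).re := by
        rw [inv_re]
        apply div_nonneg _ (normSq_nonneg _)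
        have := hre z
        simp only [hW, add_re, one_re]
        linarith
      have h4 : 0 ≤ (fderiv ℝ L z u + I * fderiv ℝ L z (I * u)).re := by
        rw [h2, re_ofReal_mul]
        exact mul_nonneg (mul_nonneg (mul_nonneg hN (normSq_nonneg _)) hc0) h3
      rw [had, hbd]
      simp only [add_re, mul_re, I_re, I_im] at h4
      linarith
    · simp [image_eq_zero_of_notMem_tsupport hz]
  have i1 := ibp isOpen_univ hac.contDiffOn hψ hc (subset_univ _) u
  have i2 := ibp isOpen_univ hbc.contDiffOn hψ hc (subset_univ _) (I * u)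
  simp only [smul_eq_mul] at i1 i2
  have hint : ∀ {f : ℂ → ℝ}, ContDiff ℝ 1 f → ∀ v, Integrable fun z => ψ z * fderiv ℝ f z v := by
    intro f hf v
    apply integrable_of_continuousOn_of_zero hc
    · exact (hψ.continuous.mul (continuous_fderiv_apply hf v)).continuousOn
    · intro z hz
      simp [image_eq_zero_of_notMem_tsupport hz]
  have i3 := integral_mono (hint hbc (I * u)) (hint hac u) key
  have i4 : ∫ z, fderiv ℝ ψ z (I * u) * b z ≤ ∫ z, Real.pi * |fderiv ℝ ψ z (I * u)| := by
    apply integral_mono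
    · apply integrable_of_continuousOn_of_zero hc
      · exact ((continuous_fderiv_apply hψ _).mul hbc.continuous).continuousOn
      · intro z hz
        simp [fderiv_eq_zero_of_notMem hz]
    · exact (integrable_fderiv_apply hψ hc _).abs.const_mul _
    · intro z
      have h1 : |b z| ≤ Real.pi := by
        simp only [hb, hL, log_im]
        exact abs_arg_le_pi _
      have h2 := le_abs_self (fderiv ℝ ψ z (I * u) * b z)
      rw [abs_mul] at h2
      have h3 := abs_nonneg (fderiv ℝ ψ z (I * u))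
      simp only
      nlinarith
  rw [integral_const_mul] at i4
  have e : (fun z => fderiv ℝ ψ z u * Real.log ‖1 + N * (u * G z)‖) =
      fun z => fderiv ℝ ψ z u * a z := by
    ext z
    simp only [ha, hL, log_re, hW]
  rw [e]
  linarith

theorem log_limit {g : ℂ → ℂ} (hm : AEStronglyMeasurable g) {M : ℝ} (hM : ∀ᵐ z, ‖g z‖ ≤ M)
    {V : Set ℂ} (hV : IsOpen V) (hw : WeakPos g V) {u : ℂ} (hu : ∀ᵐ z, 0 ≤ (u * g z).re)
    {ψ : ℂ → ℝ} (hψ : ContDiff ℝ 1 ψ) (hc : HasCompactSupport ψ) (h0 : ∀ z, 0 ≤ ψ z)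
    (hs : tsupport ψ ⊆ V) {N : ℝ} (hN : 0 ≤ N) :
    ∫ z, fderiv ℝ ψ z u * Real.log ‖1 + N * (u * g z)‖ ≤
      Real.pi * ∫ z, |fderiv ℝ ψ z (I * u)| := by
  have hl := locallyIntegrable_of_bound hm hM
  have hlim : Tendsto (fun n => ∫ z, fderiv ℝ ψ z u * Real.log ‖1 + N * (u * moll n g z)‖) atTop
      (𝓝 (∫ z, fderiv ℝ ψ z u * Real.log ‖1 + N * (u * g z)‖)) := by
    apply tendsto_integral_of_dominated_convergence
      (fun z => |fderiv ℝ ψ z u| * (N * (‖u‖ * M)))
    · intro n
      apply Measurable.aestronglyMeasurable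
      have h1 := (moll_contDiff n hl).continuous
      have h2 := continuous_fderiv_apply hψ u
      have h3 : Continuous fun z => ‖1 + N * (u * moll n g z)‖ := by fun_prop
      exact h2.measurable.mul h3.measurable.log
    · exact (integrable_fderiv_apply hψ hc u).abs.mul_const _
    · intro n
      filter_upwards with z
      rw [norm_mul, Real.norm_eq_abs, Real.norm_eq_abs]
      apply mul_le_mul_of_nonneg_left _ (abs_nonneg _)
      have h1 : 0 ≤ ((N : ℂ) * (u * moll n g z)).re := by
        rw [re_ofReal_mul]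
        exact mul_nonneg hN (re_mul_moll_nonneg n hm hM hu z)
      have h2 := one_le_norm_of_re h1
      rw [abs_of_nonneg (Real.log_nonneg h2)]
      have h3 := Real.log_le_sub_one_of_pos (lt_of_lt_of_le one_pos h2)
      have h4 := norm_add_le (1 : ℂ) (N * (u * moll n g z))
      rw [norm_one, norm_mul, norm_mul, norm_real, Real.norm_of_nonneg hN] at h4
      have h5 : N * (‖u‖ * ‖moll n g z‖) ≤ N * (‖u‖ * M) :=
        mul_le_mul_of_nonneg_left
          (mul_le_mul_of_nonneg_left (norm_moll_le n hM z) (norm_nonneg _)) hN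
      linarith
    · filter_upwards [moll_tendsto hl, hu] with z hz hz'
      apply Tendsto.const_mul
      have h1 : 0 ≤ ((N : ℂ) * (u * g z)).re := by
        rw [re_ofReal_mul]
        exact mul_nonneg hN hz'
      have h2 := one_le_norm_of_re h1
      apply Tendsto.log _ (by linarith)
      exact (((hz.const_mul u).const_mul (N : ℂ)).const_add 1).norm
  apply le_of_tendsto hlim
  filter_upwards [eventually_test_subset hc.isCompact hV hs] with n hn
  exact log_step (moll_contDiff n hl) (re_mul_moll_nonneg n hm hM hu) hψ hc h0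
    (fun z hz => dbar_moll hm hM hw (hn z hz)) hN

theorem log_ratio {w : ℂ} (hw : w ≠ 0) :
    Tendsto (fun N : ℝ => Real.log ‖1 + N * w‖ / Real.log N) atTop (𝓝 1) := by
  have h1 : Tendsto (fun N : ℝ => ((N⁻¹ : ℝ) : ℂ) + w) atTop (𝓝 (((0 : ℝ) : ℂ) + w)) :=
    ((continuous_ofReal.tendsto 0).comp tendsto_inv_atTop_zero).add_const w
  rw [ofReal_zero, zero_add] at h1
  have h2 := (h1.norm.log (norm_ne_zero_iff.2 hw)).div_atTop Real.tendsto_log_atTop
  have h3 := h2.const_add 1
  rw [add_zero] at h3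
  refine h3.congr' ?_
  filter_upwards [eventually_gt_atTop 1, h1.eventually_ne hw] with N hN hN'
  have hN0 : (0 : ℝ) < N := by linarith
  have h4 : (1 : ℂ) + N * w = N * (((N⁻¹ : ℝ) : ℂ) + w) := by
    have : (N : ℂ) ≠ 0 := by exact_mod_cast hN0.ne'
    push_cast
    field_simp
  have h5 : Real.log N ≠ 0 := (Real.log_pos hN).ne'
  rw [h4, norm_mul, norm_real, Real.norm_of_nonneg hN0.le,
    Real.log_mul hN0.ne' (norm_ne_zero_iff.2 hN')]
  field_simp

open Classical in
/-- The indicator function of the set where `g` does not vanish. -/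
noncomputable def chi (g : ℂ → ℂ) (z : ℂ) : ℝ := if g z = 0 then 0 else 1

theorem chi_meas {g : ℂ → ℂ} (hm : AEStronglyMeasurable g) : AEStronglyMeasurable (chi g) := by
  classical
  have : Measurable (fun w : ℂ => if w = 0 then (0 : ℝ) else 1) :=
    Measurable.ite (measurableSet_singleton 0) measurable_const measurable_const
  exact (this.comp_aemeasurable hm.aemeasurable).aestronglyMeasurable

theorem chi_bound (g : ℂ → ℂ) (z : ℂ) : ‖chi g z‖ ≤ 1 := by
  unfold chi
  split_ifs <;> simp

theorem weak_mono {g : ℂ → ℂ} (hm : AEStronglyMeasurable g) {M : ℝ} (hM : ∀ᵐ z, ‖g z‖ ≤ M)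
    {V : Set ℂ} (hV : IsOpen V) (hw : WeakPos g V) {u : ℂ} (hu0 : u ≠ 0)
    (hu : ∀ᵐ z, 0 ≤ (u * g z).re)
    {ψ : ℂ → ℝ} (hψ : ContDiff ℝ 1 ψ) (hc : HasCompactSupport ψ) (h0 : ∀ z, 0 ≤ ψ z)
    (hs : tsupport ψ ⊆ V) : ∫ z, fderiv ℝ ψ z u * chi g z ≤ 0 := by
  have hlim : Tendsto
      (fun N : ℝ => ∫ z, fderiv ℝ ψ z u * (Real.log ‖1 + N * (u * g z)‖ / Real.log N)) atTop
      (𝓝 (∫ z, fderiv ℝ ψ z u * chi g z)) := by
    apply tendsto_integral_filter_of_dominated_convergence
      (fun z => |fderiv ℝ ψ z u| * (1 + ‖u‖ * M))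
    · filter_upwards with N
      apply AEMeasurable.aestronglyMeasurable
      have h2 := (continuous_fderiv_apply hψ u).measurable.aemeasurable (μ := volume)
      have h3 := hm.aemeasurable
      have h4 : AEMeasurable (fun z => ‖1 + N * (u * g z)‖) := by fun_prop
      exact h2.mul (h4.log.div_const _)
    · filter_upwards [eventually_ge_atTop (Real.exp 1)] with N hN
      filter_upwards [hM, hu] with z hz hz'
      have hN0 : 0 < N := lt_of_lt_of_le (Real.exp_pos 1) hN
      have hN1 : 1 ≤ N := le_trans (by linarith [Real.add_one_le_exp (1 : ℝ)]) hN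
      have hlog : 1 ≤ Real.log N := by
        rw [Real.le_log_iff_exp_le hN0]
        exact hN
      rw [norm_mul, Real.norm_eq_abs, Real.norm_eq_abs]
      apply mul_le_mul_of_nonneg_left _ (abs_nonneg _)
      have h1 : 0 ≤ ((N : ℂ) * (u * g z)).re := by
        rw [re_ofReal_mul]
        exact mul_nonneg hN0.le hz'
      have h2 := one_le_norm_of_re h1
      rw [abs_of_nonneg (div_nonneg (Real.log_nonneg h2) (by linarith)),
        div_le_iff₀ (by linarith)]
      have h4 := norm_add_le (1 : ℂ) (N * (u * g z))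
      rw [norm_one, norm_mul, norm_mul, norm_real, Real.norm_of_nonneg hN0.le] at h4
      have hM0 : 0 ≤ ‖u‖ * M := mul_nonneg (norm_nonneg _) ((norm_nonneg _).trans hz)
      have h5 : N * (‖u‖ * ‖g z‖) ≤ N * (‖u‖ * M) :=
        mul_le_mul_of_nonneg_left (mul_le_mul_of_nonneg_left hz (norm_nonneg _)) hN0.le
      have h6 : ‖1 + N * (u * g z)‖ ≤ N * (1 + ‖u‖ * M) := by nlinarith
      have h7 := Real.log_le_log (by linarith) h6
      rw [Real.log_mul hN0.ne' (by linarith)] at h7
      have h8 := Real.log_le_sub_one_of_pos (show 0 < 1 + ‖u‖ * M by linarith)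
      nlinarith
    · exact (integrable_fderiv_apply hψ hc u).abs.mul_const _
    · filter_upwards with z
      apply Tendsto.const_mul
      unfold chi
      split_ifs with h
      · simp [h]
      · exact log_ratio (mul_ne_zero hu0 h)
  have hlim2 : Tendsto (fun N : ℝ => (Real.pi * ∫ z, |fderiv ℝ ψ z (I * u)|) / Real.log N) atTop
      (𝓝 0) := tendsto_const_nhds.div_atTop Real.tendsto_log_atTop
  apply le_of_tendsto_of_tendsto hlim hlim2
  filter_upwards [eventually_gt_atTop 1] with N hN
  have h := log_limit hm hM hV hw hu hψ hc h0 hs (N := N) (by linarith)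
  have h5 : 0 < Real.log N := Real.log_pos hN
  simp only [← mul_div_assoc]
  rw [integral_div]
  exact div_le_div_of_nonneg_right h h5.le

theorem ae_mono {g : ℂ → ℂ} (hm : AEStronglyMeasurable g) {M : ℝ} (hM : ∀ᵐ z, ‖g z‖ ≤ M)
    {V : Set ℂ} (hV : IsOpen V) (hw : WeakPos g V) {K : Set ℂ} (hK : IsCompact K)
    (hKc : Convex ℝ K) (hKV : K ⊆ V) :
    ∃ Z : Set ℂ, (∀ᵐ z, z ∈ Z) ∧ ∀ z ∈ Z ∩ K, ∀ z' ∈ Z ∩ K,
      (∀ᵐ w, 0 ≤ ((z' - z) * g w).re) → g z ≠ 0 → g z' ≠ 0 := by
  have hl : LocallyIntegrable (chi g) :=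
    locallyIntegrable_of_bound (chi_meas hm) (Eventually.of_forall (chi_bound g))
  refine ⟨_, moll_tendsto hl, ?_⟩
  rintro z ⟨hz, hzK⟩ z' ⟨hz', hzK'⟩ hu hg
  by_cases hzz : z' = z
  · rwa [hzz]
  have hu0 : z' - z ≠ 0 := sub_ne_zero.2 hzz
  have hle : chi g z ≤ chi g z' := by
    apply le_of_tendsto_of_tendsto hz hz'
    filter_upwards [eventually_test_subset hK hV hKV] with n hn
    have hd : ∀ s : ℝ, HasDerivAt (fun s : ℝ => moll n (chi g) (z + s • (z' - z)))
        (fderiv ℝ (moll n (chi g)) (z + s • (z' - z)) (z' - z)) s := by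
      intro s
      have h1 : HasDerivAt (fun s : ℝ => z + s • (z' - z)) (z' - z) s := by
        simpa using ((hasDerivAt_id s).smul_const (z' - z)).const_add z
      exact ((moll_contDiff n hl).differentiable one_ne_zero _).hasFDerivAt.comp_hasDerivAt s h1
    have hmono : MonotoneOn (fun s : ℝ => moll n (chi g) (z + s • (z' - z))) (Icc 0 1) := by
      apply monotoneOn_of_deriv_nonneg (convex_Icc 0 1)
      · exact fun s _ => (hd s).continuousAt.continuousWithinAt
      · exact fun s _ => (hd s).differentiableAt.differentiableWithinAt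
      · intro s hs
        have hs' : s ∈ Icc (0 : ℝ) 1 := interior_subset hs
        rw [(hd s).deriv, fderiv_moll n hl]
        have hmem : z + s • (z' - z) ∈ K := hKc.add_smul_sub_mem hzK hzK' hs'
        have := weak_mono hm hM hV hw hu0 hu (test_contDiff n _) (test_compact n _)
          (test_nonneg n _) (hn _ hmem)
        simp only [smul_eq_mul]
        linarith
    have := hmono (left_mem_Icc.2 zero_le_one) (right_mem_Icc.2 zero_le_one) zero_le_one
    simpa using this
  intro h
  simp only [chi, h, hg, if_true, if_false] at hle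
  linarith

end Pool.Agent.MP_46692b_an.H26
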